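import Mathlib

/-!
# Block sieve, part 6: Mertens type upper bounds.
-/

open Finset

namespace BlockSieve

/-- the primes up to `n` -/
def pr (n : ℕ) : Finset ℕ := (Icc 1 n).filter Nat.Prime

lemma mem_pr {n p : ℕ} : p ∈ pr n ↔ p.Prime ∧ p ≤ n := by
  unfold pr
  rw [mem_filter, mem_Icc]
  constructor
  · rintro ⟨⟨_, h⟩, hp⟩; exact ⟨hp, h⟩
  · rintro ⟨hp, h⟩; exact ⟨⟨hp.one_lt.le, h⟩, hp⟩

lemma pr_succ (n : ℕ) : pr (n + 1) = if (n + 1).Prime then insert (n + 1) (pr n) else pr n := by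
  unfold pr
  have : Icc 1 (n + 1) = insert (n + 1) (Icc 1 n) := by
    ext x; simp only [mem_Icc, mem_insert]; omega
  rw [this, Finset.filter_insert]

lemma theta_le (n : ℕ) : ∑ p ∈ pr n, Real.log p ≤ Real.log 4 * n := by
  have h1 := Chebyshev.theta_le_log4_mul_x (x := (n : ℝ)) (Nat.cast_nonneg n)
  rw [Chebyshev.theta_eq_sum_primesLE_log] at h1
  have : pr n = Nat.primesLE n := by
    ext p
    rw [mem_pr, Nat.mem_primesLE]
    exact and_comm
  rw [this]
  exact h1

/-- `∑_{p ≤ n} log p / p ≤ log n + log 4` -/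
lemma sum_log_div_le {n : ℕ} (hn : 1 ≤ n) :
    ∑ p ∈ pr n, Real.log p / p ≤ Real.log n + Real.log 4 := by
  have hn' : (0 : ℝ) < n := by exact_mod_cast hn
  -- `∑_{m ≤ n} log m ≤ n log n`
  have h1 : ∑ m ∈ Ioc 0 n, Real.log m ≤ n * Real.log n := by
    calc ∑ m ∈ Ioc 0 n, Real.log m ≤ ∑ m ∈ Ioc 0 n, Real.log n := by
          refine Finset.sum_le_sum fun m hm => ?_
          rw [mem_Ioc] at hm
          exact Real.log_le_log (by exact_mod_cast hm.1) (by exact_mod_cast hm.2)
      _ = n * Real.log n := by simp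
  have h2 : ∀ m ∈ Ioc 0 n, ∑ p ∈ pr n, (if p ∣ m then Real.log p else 0) ≤ Real.log m := by
    intro m hm
    rw [mem_Ioc] at hm
    have hpf : (pr n).filter (fun p => p ∣ m) = m.primeFactors := by
      ext p
      rw [mem_filter, mem_pr, Nat.mem_primeFactors]
      constructor
      · rintro ⟨⟨hp, _⟩, hd⟩; exact ⟨hp, hd, hm.1.ne'⟩
      · rintro ⟨hp, hd, _⟩; exact ⟨⟨hp, (Nat.le_of_dvd hm.1 hd).trans hm.2⟩, hd⟩
    rw [← Finset.sum_filter, hpf]
    have h3 : ∑ p ∈ m.primeFactors, Real.log p = Real.log ((∏ p ∈ m.primeFactors, p : ℕ) : ℝ) := by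
      rw [Nat.cast_prod, Real.log_prod]
      intro p hp
      have := (Nat.prime_of_mem_primeFactors hp).pos
      exact_mod_cast this.ne'
    rw [h3]
    refine Real.log_le_log ?_ ?_
    · exact_mod_cast Finset.prod_pos fun p hp => (Nat.prime_of_mem_primeFactors hp).pos
    · exact_mod_cast Nat.le_of_dvd hm.1 (Nat.prod_primeFactors_dvd m)
  have h3 : ∑ p ∈ pr n, Real.log p * ((n / p : ℕ) : ℝ) ≤ n * Real.log n := by
    refine le_trans ?_ ((Finset.sum_le_sum h2).trans h1)
    rw [Finset.sum_comm]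
    refine Finset.sum_le_sum fun p _ => ?_
    rw [← Finset.sum_filter, Finset.sum_const, nsmul_eq_mul, Nat.Ioc_filter_dvd_card_eq_div, mul_comm]
  have h4 : ∑ p ∈ pr n, Real.log p * ((n : ℝ) / p - 1) ≤ n * Real.log n := by
    refine le_trans (Finset.sum_le_sum fun p hp => ?_) h3
    refine mul_le_mul_of_nonneg_left ?_ (Real.log_natCast_nonneg p)
    have := Nat.lt_floor_add_one ((n : ℝ) / p)
    rw [Nat.floor_div_eq_div] at this
    linarith
  have h5 : ∑ p ∈ pr n, Real.log p * ((n : ℝ) / p - 1)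
      = n * (∑ p ∈ pr n, Real.log p / p) - ∑ p ∈ pr n, Real.log p := by
    rw [Finset.mul_sum, ← Finset.sum_sub_distrib]
    refine Finset.sum_congr rfl fun p _ => ?_
    ring
  have h6 := theta_le n
  have h7 : n * (∑ p ∈ pr n, Real.log p / p) ≤ n * (Real.log n + Real.log 4) := by
    rw [h5] at h4
    linarith
  exact le_of_mul_le_mul_left h7 hn'

/-- Mertens: `∑_{p ≤ n} 1/p ≤ log log n + 4` -/
lemma sum_inv_le {n : ℕ} (hn : 2 ≤ n) :
    ∑ p ∈ pr n, (1 : ℝ) / p ≤ Real.log (Real.log n) + 4 := by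
  have hlog2 : 0 < Real.log 2 := Real.log_pos (by norm_num)
  have hlog4 : Real.log 4 = 2 * Real.log 2 := by
    rw [show (4:ℝ) = 2 ^ 2 by norm_num, Real.log_pow]; norm_num
  -- induction
  have key : ∀ m : ℕ, 2 ≤ m → (∑ p ∈ pr m, (1 : ℝ) / p) - (∑ p ∈ pr m, Real.log p / p) / Real.log m
      ≤ Real.log (Real.log m) - Real.log (Real.log 2)
        + Real.log 4 * (1 / Real.log 2 - 1 / Real.log m) := by
    intro m hm
    induction m, hm using Nat.le_induction with
    | base =>
      have : pr 2 = {2} := by decide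
      rw [this]
      simp only [Finset.sum_singleton]
      push_cast
      have : Real.log 2 / 2 / Real.log 2 = 1 / 2 := by field_simp
      rw [this]
      simp
    | succ m hm ih =>
      have hm1 : (1 : ℝ) < m := by exact_mod_cast (by omega : 1 < m)
      have hL : 0 < Real.log m := Real.log_pos hm1
      have hL' : 0 < Real.log ((m + 1 : ℕ) : ℝ) := Real.log_pos (by push_cast; linarith)
      have hLL : Real.log m ≤ Real.log ((m + 1 : ℕ) : ℝ) :=
        Real.log_le_log (by linarith) (by push_cast; linarith)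
      have hA := sum_log_div_le (n := m) (by omega)
      have e1 : (∑ p ∈ pr (m + 1), (1 : ℝ) / p)
          - (∑ p ∈ pr (m + 1), Real.log p / p) / Real.log ((m + 1 : ℕ) : ℝ)
          = (∑ p ∈ pr m, (1 : ℝ) / p) - (∑ p ∈ pr m, Real.log p / p) / Real.log ((m + 1 : ℕ) : ℝ) := by
        rw [pr_succ]
        split_ifs with hp
        · have hnot : m + 1 ∉ pr m := by rw [mem_pr]; omega
          rw [Finset.sum_insert hnot, Finset.sum_insert hnot]
          have hm0 : ((m + 1 : ℕ) : ℝ) ≠ 0 := by positivity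
          field_simp
          ring
        · rfl
      rw [e1]
      have e2 : (∑ p ∈ pr m, (1 : ℝ) / p) - (∑ p ∈ pr m, Real.log p / p) / Real.log ((m + 1 : ℕ) : ℝ)
          = ((∑ p ∈ pr m, (1 : ℝ) / p) - (∑ p ∈ pr m, Real.log p / p) / Real.log m)
            + (∑ p ∈ pr m, Real.log p / p) * (1 / Real.log m - 1 / Real.log ((m + 1 : ℕ) : ℝ)) := by
        ring
      rw [e2]
      have h1 : 0 ≤ 1 / Real.log m - 1 / Real.log ((m + 1 : ℕ) : ℝ) := by
        rw [sub_nonneg]; exact one_div_le_one_div_of_le hL hLL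
      have h2 := mul_le_mul_of_nonneg_right hA h1
      have h3 : Real.log m * (1 / Real.log m - 1 / Real.log ((m + 1 : ℕ) : ℝ))
          ≤ Real.log (Real.log ((m + 1 : ℕ) : ℝ)) - Real.log (Real.log m) := by
        have h4 := Real.add_one_le_exp (Real.log (Real.log m) - Real.log (Real.log ((m + 1 : ℕ) : ℝ)))
        rw [Real.exp_sub, Real.exp_log hL, Real.exp_log hL'] at h4
        have h5 : Real.log m * (1 / Real.log m - 1 / Real.log ((m + 1 : ℕ) : ℝ))
            = 1 - Real.log m / Real.log ((m + 1 : ℕ) : ℝ) := by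
          field_simp
        rw [h5]
        linarith
      have h6 : (Real.log m + Real.log 4) * (1 / Real.log m - 1 / Real.log ((m + 1 : ℕ) : ℝ))
          = Real.log m * (1 / Real.log m - 1 / Real.log ((m + 1 : ℕ) : ℝ))
            + Real.log 4 * (1 / Real.log m - 1 / Real.log ((m + 1 : ℕ) : ℝ)) := by ring
      have h7 : Real.log 4 * (1 / Real.log 2 - 1 / Real.log ((m + 1 : ℕ) : ℝ))
          = Real.log 4 * (1 / Real.log 2 - 1 / Real.log m)
            + Real.log 4 * (1 / Real.log m - 1 / Real.log ((m + 1 : ℕ) : ℝ)) := by ring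
      rw [h7]
      linarith
  have hk := key n hn
  have hn1 : (2 : ℝ) ≤ n := by exact_mod_cast hn
  have hLn : Real.log 2 ≤ Real.log n := Real.log_le_log (by norm_num) hn1
  have hLn0 : 0 < Real.log n := lt_of_lt_of_le hlog2 hLn
  have h8 := sum_log_div_le (n := n) (by omega)
  have h9 : (∑ p ∈ pr n, Real.log p / p) / Real.log n ≤ 1 + Real.log 4 / Real.log n := by
    rw [div_le_iff₀ hLn0, add_mul, one_mul, div_mul_cancel₀ _ hLn0.ne']
    exact h8
  have h10 : Real.log 4 * (1 / Real.log 2 - 1 / Real.log n)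
      = 2 - Real.log 4 / Real.log n := by
    rw [hlog4]; field_simp
  have h11 : -Real.log (Real.log 2) ≤ 1 := by
    have h12 : Real.log (Real.log 2) = - Real.log (Real.log 2)⁻¹ := by rw [Real.log_inv, neg_neg]
    rw [h12, neg_neg]
    have h13 : (Real.log 2)⁻¹ ≤ 2 := by
      rw [inv_le_comm₀ hlog2 (by norm_num)]
      have := Real.log_two_gt_d9
      norm_num
      linarith
    calc Real.log (Real.log 2)⁻¹ ≤ (Real.log 2)⁻¹ - 1 := Real.log_le_sub_one_of_pos (inv_pos.mpr hlog2)
      _ ≤ 1 := by linarith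
  linarith

lemma sum_telescope_le (n : ℕ) : ∑ m ∈ Icc 2 n, (1 : ℝ) / (m * (m - 1)) ≤ 1 := by
  have h : ∀ n : ℕ, 1 ≤ n → ∑ m ∈ Icc 2 n, (1 : ℝ) / (m * (m - 1)) = 1 - 1 / n := by
    intro n hn
    induction n, hn using Nat.le_induction with
    | base => simp
    | succ m hm ih =>
      have : Icc 2 (m + 1) = insert (m + 1) (Icc 2 m) := by
        ext x; simp only [mem_Icc, mem_insert]; omega
      rw [this, Finset.sum_insert (by simp), ih]
      have hm0 : (m : ℝ) ≠ 0 := by exact_mod_cast (by omega : m ≠ 0)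
      have hm1 : (m : ℝ) + 1 ≠ 0 := by positivity
      push_cast
      rw [add_sub_cancel_right]
      field_simp
      ring
  rcases Nat.eq_zero_or_pos n with rfl | hn
  · simp
  · rw [h n hn]
    have : (0 : ℝ) ≤ 1 / n := by positivity
    linarith

/-- lower bound for the sieve product -/
lemma prod_one_sub_ge {n : ℕ} (hn : 2 ≤ n) (P : Finset ℕ) (hP : P ⊆ pr n) :
    Real.exp (-5) / Real.log n ≤ ∏ p ∈ P, (1 - (1 : ℝ) / p) := by
  have hlogn : 0 < Real.log n := Real.log_pos (by exact_mod_cast (by omega : 1 < n))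
  have h1 : ∀ p ∈ P, Real.exp (-(1 / ((p : ℝ) - 1))) ≤ 1 - (1 : ℝ) / p := by
    intro p hp
    have hp2 : (2 : ℝ) ≤ p := by exact_mod_cast (mem_pr.mp (hP hp)).1.two_le
    have h2 := Real.add_one_le_exp (1 / ((p : ℝ) - 1))
    have h3 : 1 / ((p : ℝ) - 1) + 1 = (1 - (1 : ℝ) / p)⁻¹ := by
      have : (p : ℝ) - 1 ≠ 0 := by linarith
      have : (p : ℝ) ≠ 0 := by linarith
      field_simp
      ring
    have h4 : 0 < 1 - (1 : ℝ) / p := by
      rw [sub_pos, div_lt_one (by linarith)]; linarith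
    rw [h3] at h2
    rw [Real.exp_neg]
    exact (inv_le_comm₀ h4 (Real.exp_pos _)).mp h2
  have h2 : Real.exp (-(∑ p ∈ P, 1 / ((p : ℝ) - 1))) ≤ ∏ p ∈ P, (1 - (1 : ℝ) / p) := by
    rw [← Finset.sum_neg_distrib, Real.exp_sum]
    exact Finset.prod_le_prod (fun _ _ => (Real.exp_pos _).le) h1
  refine le_trans ?_ h2
  have h3 : ∑ p ∈ P, 1 / ((p : ℝ) - 1) ≤ Real.log (Real.log n) + 5 := by
    calc ∑ p ∈ P, 1 / ((p : ℝ) - 1) = ∑ p ∈ P, ((1 : ℝ) / p + 1 / (p * (p - 1))) := by
          refine Finset.sum_congr rfl fun p hp => ?_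
          have hp2 : (2 : ℝ) ≤ p := by exact_mod_cast (mem_pr.mp (hP hp)).1.two_le
          have : (p : ℝ) - 1 ≠ 0 := by linarith
          have : (p : ℝ) ≠ 0 := by linarith
          field_simp
          ring
      _ = ∑ p ∈ P, (1 : ℝ) / p + ∑ p ∈ P, (1 : ℝ) / (p * (p - 1)) := Finset.sum_add_distrib
      _ ≤ ∑ p ∈ pr n, (1 : ℝ) / p + ∑ m ∈ Icc 2 n, (1 : ℝ) / (m * (m - 1)) := by
          refine add_le_add ?_ ?_
          · exact Finset.sum_le_sum_of_subset_of_nonneg hP fun _ _ _ => by positivity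
          · refine Finset.sum_le_sum_of_subset_of_nonneg ?_ ?_
            · intro p hp
              have := mem_pr.mp (hP hp)
              rw [mem_Icc]
              exact ⟨this.1.two_le, this.2⟩
            · intro m hm _
              rw [mem_Icc] at hm
              have : (2 : ℝ) ≤ m := by exact_mod_cast hm.1
              have : (0 : ℝ) ≤ (m : ℝ) - 1 := by linarith
              positivity
      _ ≤ Real.log (Real.log n) + 5 := by
          have := sum_inv_le hn
          have := sum_telescope_le n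
          linarith
  calc Real.exp (-5) / Real.log n = Real.exp (-(Real.log (Real.log n) + 5)) := by
        rw [neg_add, Real.exp_add, Real.exp_neg (Real.log (Real.log n)), Real.exp_log hlogn]
        ring
    _ ≤ _ := Real.exp_le_exp.mpr (by linarith)

end BlockSieve
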